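import Mathlib
import Pool.Agent.Helper531.LocSepDefs
import Pool.Agent.Helper531.Sine

set_option autoImplicit false

namespace Pool.Agent.Results.MP_a3a891_gt.SineCurve

open Pool.Agent.Helper531

/-- Condition (S) for `C`: the set `L(C)` of local separating points is not the union of a countable
(finite or infinite) family of pairwise disjoint closed subsets of `C`, each different from `C`. -/
def ConditionS (C : Set (ℝ × ℝ)) : Prop :=
  ∀ (ι : Type) (_ : Countable ι) (F : ι → Set (ℝ × ℝ)),
    (∀ i, F i ⊆ C ∧ IsClosed (F i) ∧ F i ≠ C) → (∀ i j, i ≠ j → Disjoint (F i) (F j)) →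
      LocalSeparatingPoints C ≠ ⋃ i, F i

/-- There is a (plane) continuum `X` all of whose nondegenerate subcontinua satisfy condition (S),
while some connected subset `A` of `X` is not arcwise connected. -/
theorem result :
    ∃ X : Set (ℝ × ℝ), IsCompact X ∧ IsConnected X ∧
      (∀ C : Set (ℝ × ℝ), C ⊆ X → IsCompact C → IsConnected C → C.Nontrivial → ConditionS C) ∧
      ∃ A : Set (ℝ × ℝ), A ⊆ X ∧ IsConnected A ∧ ¬ ArcwiseConnected A := by
  refine ⟨Sine.X, Sine.X_compact, Sine.X_connected, ?_,
    Sine.X, subset_rfl, Sine.X_connected, Sine.not_arcwise⟩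
  intro C hCX hC hCc hnt ι hι F hF hd hU
  exact Sine.not_countable_union hCX hC hCc.isPreconnected hnt F (fun i => (hF i).1)
    (fun i => (hF i).2.1) (fun i => (hF i).2.2) hd (le_of_eq hU)

end Pool.Agent.Results.MP_a3a891_gt.SineCurve
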